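import Pool.Agent.N115.IM.Stm

/-!
Polynomials whose values at many constants are `m`-th powers: images of bounded degree.
-/

set_option autoImplicit false

open FF Pool.Agent.W603.LV Pool.Agent.W602.GT Pool.Agent.Y190.BV Polynomial

namespace Pool.Agent.N157.IM

open Pool.Agent.N115.IM

theorem rad_images (hC : CoreImages) : RadImages := by
  intro k K L _ _ _ _ _ _ _ _ _ _ _ w r n m N hw hr htr hfin hm hN a ha H hH hdeg halg y hpow
    hmult i0 hi0 lam hadj
  classical
  have hchK : CharZero K := charZero_of_injective_algebraMap (algebraMap k K).injective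
  have hinf : Infinite k := inferInstance
  obtain ⟨T, e, u, hu, hT, hHT, hTall⟩ := factor hH
  set T1 : Finset K[X] := T.filter (fun p => ∀ i, p.eval (algebraMap k K (a i)) ≠ 0) with hT1
  set T0 : Finset K[X] := T.filter (fun p => ¬ ∀ i, p.eval (algebraMap k K (a i)) ≠ 0) with hT0
  set G : K[X] := ∏ p ∈ T1, p with hG
  have hT1T : ∀ p ∈ T1, p ∈ T := fun p hp => (Finset.mem_filter.1 hp).1
  have hem : ∀ p ∈ T, e p < m := by
    intro p hp
    by_contra hcon
    push Not at hcon
    exact hmult p (hT p hp).1 ((pow_dvd_pow p hcon).trans (hT p hp).2.2.2.2)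
  have hGsep : G.Separable := by
    refine Polynomial.separable_prod' ?_ ?_
    · intro p hp r hr hpr
      exact coprime_of_ne (hT p (hT1T p hp)).1 (hT r (hT1T r hr)).1 (hT p (hT1T p hp)).2.1
        (hT r (hT1T r hr)).2.1 hpr
    · intro p hp
      exact (hT p (hT1T p hp)).1.separable
  have hG0 : G ≠ 0 := hGsep.ne_zero
  have hGa : ∀ i, G.eval (algebraMap k K (a i)) ≠ 0 := by
    intro i
    rw [hG, Polynomial.eval_prod]
    exact Finset.prod_ne_zero_iff.2 fun p hp => (Finset.mem_filter.1 hp).2 i
  -- the Galois extension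
  let q : K[X] := ∏ p ∈ T, p
  have hqsep : q.Separable := by
    refine Polynomial.separable_prod' ?_ ?_
    · intro p hp r hr hpr
      exact coprime_of_ne (hT p hp).1 (hT r hr).1 (hT p hp).2.1 (hT r hr).2.1 hpr
    · intro p hp
      exact (hT p hp).1.separable
  let E := q.SplittingField
  have hgal : IsGalois K E := IsGalois.of_separable_splitting_field hqsep
  have hqs : (q.map (algebraMap K E)).Splits := Polynomial.SplittingField.splits q
  have hps : ∀ p ∈ T, (p.map (algebraMap K E)).Splits := by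
    intro p hp
    exact hqs.of_dvd (Polynomial.map_ne_zero hqsep.ne_zero)
      (Polynomial.map_dvd _ (Finset.dvd_prod_of_mem _ hp))
  have hGs : (G.map (algebraMap K E)).Splits := by
    refine hqs.of_dvd (Polynomial.map_ne_zero hqsep.ne_zero) (Polynomial.map_dvd _ ?_)
    exact Finset.prod_dvd_prod_of_subset _ _ _ (Finset.filter_subset _ _)
  have hHs : (H.map (algebraMap K E)).Splits := by
    rw [hHT, Polynomial.map_mul, Polynomial.map_C, Polynomial.map_prod]
    refine (Polynomial.Splits.C _).mul (Polynomial.Splits.prod fun p hp => ?_)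
    rw [Polynomial.map_pow]
    exact (hps p hp).pow _
  have hS : Algebra.IsAlgebraic (Algebra.adjoin k (G.rootSet E)) E := by
    refine alg_of_roots H hH hHs halg _ fun t ht => ?_
    rw [hHT, map_mul, aeval_C, map_prod] at ht
    have h1 := (mul_eq_zero.1 ht).resolve_left ((_root_.map_ne_zero _).2 hu)
    obtain ⟨p, hp, hp2⟩ := Finset.prod_eq_zero_iff.1 h1
    rw [map_pow] at hp2
    have hp3 := eq_zero_of_pow_eq_zero hp2
    by_cases hp1 : ∀ i, p.eval (algebraMap k K (a i)) ≠ 0
    · apply IntermediateField.subset_adjoin k _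
      rw [Polynomial.mem_rootSet]
      refine ⟨hG0, ?_⟩
      rw [hG, map_prod]
      exact Finset.prod_eq_zero (Finset.mem_filter.2 ⟨hp, hp1⟩) hp3
    · push Not at hp1
      obtain ⟨i, hi⟩ := hp1
      rw [eq_X_sub_C (hT p hp).1 (hT p hp).2.1 hi, map_sub, aeval_X, aeval_C, sub_eq_zero] at hp3
      rw [hp3, ← IsScalarTower.algebraMap_apply]
      exact IntermediateField.algebraMap_mem _ _
  -- the good nodes
  let I1 : Finset (Fin (N + 1)) :=
    Finset.univ.filter fun i => H.eval (algebraMap k K (a i)) ≠ 0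
  let I0 : Finset (Fin (N + 1)) :=
    Finset.univ.filter fun i => ¬ H.eval (algebraMap k K (a i)) ≠ 0
  have hI : I1.card + I0.card = N + 1 := by
    have := Finset.card_filter_add_card_filter_not (s := (Finset.univ : Finset (Fin (N + 1))))
      (fun i => H.eval (algebraMap k K (a i)) ≠ 0)
    rw [Finset.card_univ, Fintype.card_fin] at this
    exact this
  -- degrees
  have hdegT : ∑ p ∈ T, p.natDegree ≤ n := by
    have h1 : (∏ p ∈ T, p) ∣ H := by
      rw [hHT]
      refine Dvd.dvd.mul_left ?_ _
      exact Finset.prod_dvd_prod_of_dvd _ _ fun p hp =>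
        dvd_pow_self p (by have := (hT p hp).2.2.2.1; omega)
    have h2 := Polynomial.natDegree_le_of_dvd h1 hH
    rw [Polynomial.natDegree_prod _ _ fun p hp => (hT p hp).1.ne_zero] at h2
    exact h2.trans hdeg
  have hdegG : G.natDegree = ∑ p ∈ T1, p.natDegree := by
    rw [hG, Polynomial.natDegree_prod _ _ fun p hp => (hT p (hT1T p hp)).1.ne_zero]
  have hI0T : I0.card ≤ ∑ p ∈ T0, p.natDegree := by
    have h1 : I0.card ≤ T0.card := by
      refine Finset.card_le_card_of_injOn (fun i => X - C (algebraMap k K (a i))) ?_ ?_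
      · intro i hi
        have hi2 := (Finset.mem_filter.1 hi).2
        rw [not_not] at hi2
        refine Finset.mem_coe.2 (Finset.mem_filter.2 ⟨hTall _ (Polynomial.irreducible_X_sub_C _)
          (Polynomial.monic_X_sub_C _) (Polynomial.dvd_iff_isRoot.2 hi2), ?_⟩)
        push Not
        exact ⟨i, by simp⟩
      · intro i _ j _ hij
        have h2 := Polynomial.C_injective (sub_right_injective hij)
        exact ha ((algebraMap k K).injective h2)
    refine h1.trans ?_
    rw [Finset.card_eq_sum_ones]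
    refine Finset.sum_le_sum fun p hp => ?_
    exact (hT p (Finset.mem_filter.1 hp).1).1.natDegree_pos
  have hsplitT : ∑ p ∈ T1, p.natDegree + ∑ p ∈ T0, p.natDegree = ∑ p ∈ T, p.natDegree :=
    Finset.sum_filter_add_sum_filter_not _ _ _
  have hdz : G.natDegree + I0.card ≤ n := by omega
  let ee := I1.equivFin.symm
  have hee : ∀ i, H.eval (algebraMap k K (a (ee i))) ≠ 0 := fun i =>
    (Finset.mem_filter.1 (ee i).2).2
  -- divisibility by m
  have hnN : n ≤ N := by nlinarith
  have hboth : ∀ (P : Place k K) (i : Fin (N + 1)), H.eval (algebraMap k K (a i)) ≠ 0 →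
      ct P G (a i) ≤ ct P H (a i) ∧ ct P H (a i) ≤ ((m : ℤ) - 1) * ct P G (a i) := by
    intro P i hi
    have hpe : ∀ p ∈ T, p.eval (algebraMap k K (a i)) ≠ 0 := by
      intro p hp h0
      apply hi
      obtain ⟨r, hr⟩ := (hT p hp).2.2.1
      rw [hr, Polynomial.eval_mul, h0, zero_mul]
    have h2 : ct P H (a i) = ∑ p ∈ T, (e p : ℤ) * ct P p (a i) := by
      have hprod : (∏ p ∈ T, p ^ e p).eval (algebraMap k K (a i)) ≠ 0 := by
        rw [Polynomial.eval_prod]
        refine Finset.prod_ne_zero_iff.2 fun p hp => ?_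
        rw [Polynomial.eval_pow]
        exact pow_ne_zero _ (hpe p hp)
      rw [hHT, ct_mul P (by rw [Polynomial.eval_C]; exact hu) hprod, ct_C P hu, zero_add,
        ct_prod P T _ fun p hp => by
          rw [Polynomial.eval_pow]
          exact pow_ne_zero _ (hpe p hp)]
      exact Finset.sum_congr rfl fun p hp => ct_pow P (hpe p hp) _
    have h3 : ∑ p ∈ T0, (e p : ℤ) * ct P p (a i) = 0 := by
      refine Finset.sum_eq_zero fun p hp => ?_
      have hp' := (Finset.mem_filter.1 hp)
      have hp2 := hp'.2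
      push Not at hp2
      obtain ⟨j, hj⟩ := hp2
      have hpX := eq_X_sub_C (hT p hp'.1).1 (hT p hp'.1).2.1 hj
      have hij : a i ≠ a j := by
        intro h
        apply hpe p hp'.1
        rw [h]; exact hj
      rw [hpX, ct_X_sub_C P hij, mul_zero]
    have h4 : ct P H (a i) = ∑ p ∈ T1, (e p : ℤ) * ct P p (a i) := by
      have h5 : ∑ p ∈ T1, (e p : ℤ) * ct P p (a i) + ∑ p ∈ T0, (e p : ℤ) * ct P p (a i) =
          ∑ p ∈ T, (e p : ℤ) * ct P p (a i) := Finset.sum_filter_add_sum_filter_not _ _ _
      rw [h2]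
      linarith
    have h5 : ct P G (a i) = ∑ p ∈ T1, ct P p (a i) :=
      ct_prod P T1 _ fun p hp => hpe p (hT1T p hp)
    have h6 : ct P G (a i) ≤ ct P H (a i) := by
      rw [h4, h5]
      refine Finset.sum_le_sum fun p hp => ?_
      have h7 := ct_nonneg P (hpe p (hT1T p hp))
      have h8 : (1 : ℤ) ≤ e p := by exact_mod_cast (hT p (hT1T p hp)).2.2.2.1
      nlinarith
    have h7 : ct P H (a i) ≤ ((m : ℤ) - 1) * ct P G (a i) := by
      rw [h4, h5, Finset.mul_sum]
      refine Finset.sum_le_sum fun p hp => ?_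
      have h7 := ct_nonneg P (hpe p (hT1T p hp))
      have h8 : (e p : ℤ) ≤ (m : ℤ) - 1 := by
        have := hem p (hT1T p hp)
        omega
      nlinarith
    exact ⟨h6, h7⟩
  have hdivm : ∀ (P : Place k K) i, (m : ℤ) ∣ P.ord (H.eval (algebraMap k K (a i))) := by
    intro P i
    rw [← hpow i, P.ord_pow]
    exact Dvd.intro _ rfl
  have hram : ∀ (P : Place k K) (i : Fin (N + 1)), H.eval (algebraMap k K (a i)) ≠ 0 →
      ct P G (a i) = 0 ∨ 2 ≤ ct P G (a i) := by
    intro P i hi
    have hcntm : (m : ℤ) ∣ cnt P H := by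
      obtain ⟨j, hj, hj2⟩ := exists_good P hH hdeg (fun i : Fin (n + 1) =>
        a (Fin.castLE (by omega) i)) (fun x y hxy => Fin.castLE_injective _ (ha hxy))
      rw [← hj2]
      exact hdivm P _
    have h1 : (m : ℤ) ∣ ct P H (a i) := dvd_sub (hdivm P i) hcntm
    obtain ⟨h6, h7⟩ := hboth P i hi
    have h8 : 0 ≤ ct P G (a i) := ct_nonneg P (hGa i)
    obtain ⟨c, hc⟩ := h1
    by_contra hcon
    push Not at hcon
    have h9 : ct P G (a i) = 1 := by omega
    rw [h9, hc] at h6
    rw [h9, hc, mul_one] at h7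
    have hm' : (2 : ℤ) ≤ m := by exact_mod_cast hm
    have h10 : c < 1 := by
      by_contra h
      push Not at h
      nlinarith
    have h11 : c ≤ 0 := by omega
    nlinarith
  have hi0H : H.eval (algebraMap k K (a i0)) = 1 := by rw [← hpow i0, hi0, one_pow]
  have hi0I : i0 ∈ I1 := Finset.mem_filter.2 ⟨Finset.mem_univ _, by rw [hi0H]; exact one_ne_zero⟩
  -- the bound for the poles of `f`
  have hpole : ∀ (P : Place k K) (l : Fin (N + 1)), Ge P (-(ct P G (a i0))) (y l) := by
    intro P l
    by_cases hl : y l = 0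
    · exact Or.inl hl
    right
    have hHl : H.eval (algebraMap k K (a l)) ≠ 0 := by
      rw [← hpow l]; exact pow_ne_zero _ hl
    have h1 : (m : ℤ) * P.ord (y l) = P.ord (H.eval (algebraMap k K (a l))) := by
      rw [← hpow l, P.ord_pow]
    have h2 : 0 ≤ ct P H (a l) := ct_nonneg P hHl
    obtain ⟨_, h4⟩ := hboth P i0 (by rw [hi0H]; exact one_ne_zero)
    have h5 : 0 ≤ ct P G (a i0) := ct_nonneg P (hGa i0)
    have h6 : ct P H (a i0) = - cnt P H := by
      unfold ct
      rw [hi0H, P.ord_one]
      ring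
    unfold ct at h2
    rw [h6] at h4
    have hm' : (2 : ℤ) ≤ m := by exact_mod_cast hm
    nlinarith
  refine hC k K L w r hw hr htr hfin E G hGsep hGs hS I1.card (fun i => a (ee i))
    (fun i j hij => ee.injective (Subtype.ext (ha hij))) 2 (fun _ => 1) (fun _ => by norm_num) ?_
    (fun i => hGa _) ?_ (ee.symm ⟨i0, hi0I⟩) _ hadj ?_
  · rw [Finset.sum_const, Finset.card_univ, Fintype.card_fin, smul_eq_mul, mul_one]
    set d := G.natDegree
    set z := I0.card
    obtain ⟨s, rfl⟩ : ∃ s, r = s + 1 := ⟨r - 1, by omega⟩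
    have e1 : s + 1 - 1 = s := by omega
    have e2 : n + 2 * (s + 1) - 1 = n + 2 * s + 1 := by omega
    rw [e2] at hN
    rw [e1]
    have h1 : 4 * ((w + 2 * s) * (d + 1 - w)) ≤ (d + 2 * s + 1) ^ 2 := by
      rcases le_total w (d + 1) with h | h
      · obtain ⟨t, ht⟩ := Nat.exists_eq_add_of_le h
        have e3 : d + 1 - w = t := by omega
        have e4 : d + 2 * s + 1 = (w + 2 * s) + t := by omega
        rw [e3, e4]
        have := four_mul_le_sq_add ((w + 2 * s : ℕ) : ℤ) (t : ℤ)
        zify
        push_cast at this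
        nlinarith
      · rw [Nat.sub_eq_zero_of_le h, mul_zero, mul_zero]
        positivity
    have h2 : (d + 2 * s + 1) ^ 2 ≤ (n + 2 * s + 1) ^ 2 := by
      have : d ≤ n := by omega
      gcongr
    have h3 : 2 * (d + (w + 2 * s) * (d + 1 - w)) = 2 * d + 2 * ((w + 2 * s) * (d + 1 - w)) := by
      ring
    rw [h3]
    omega
  · intro P j0 hj0 hj1 i
    have h1 : P.ord (G.coeff j0) = cnt P G := by
      refine (cnt_unique P (fun j => ?_) ⟨j0, hj0, rfl⟩).symm
      exact hj1 j
    rw [h1]
    rcases hram P (ee i) (hee i) with h2 | h2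
    · left
      unfold ct at h2
      omega
    · right
      unfold ct at h2
      push_cast
      linarith
  · intro P j0 hj0 hj1
    have h1 : P.ord (G.coeff j0) = cnt P G := by
      refine (cnt_unique P (fun j => ?_) ⟨j0, hj0, rfl⟩).symm
      exact hj1 j
    rw [h1]
    have h2 : (ee (ee.symm ⟨i0, hi0I⟩) : Fin (N + 1)) = i0 := by
      rw [Equiv.apply_symm_apply]
    have h3 : Ge P (-(ct P G (a i0))) (∑ i, lam i • y i) := by
      refine Ge.sum _ _ fun i _ => ?_
      rw [Algebra.smul_def]
      have := (Ge.const (P := P) (lam i)).mul (hpole P i)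
      rwa [zero_add] at this
    rw [h2]
    exact h3

end Pool.Agent.N157.IM
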